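import Pool.Agent.H761Z.PPM.Main

set_option autoImplicit false

namespace Pool.Agent.Results.MP_ab626d_lc.AIffPneNP

open Pool.Agent.NPC Pool.Agent.H761Z.PPM

/-- The following are equivalent: some permutation class of unbounded grid-width has a pattern
matching problem that is not `NP`-hard; the dichotomy of Q1 fails; `P ≠ NP`. -/
theorem result : List.TFAE
    [∃ C : Set (List ℕ), IsClass C ∧ ¬ BoundedGW C ∧ ¬ PPMHard C,
      ¬ ∀ C : Set (List ℕ), IsClass C →
        (¬ BoundedGW C → PPMInNP C ∧ PPMHard C) ∧ (BoundedGW C → PPMInP C),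
      ¬ ∀ L : Set (List Bool), InNP L → InP L] := by
  tfae_have 1 → 2 := fun ⟨C, h1, h2, h3⟩ H => h3 ((H C h1).1 h2).2
  tfae_have 2 → 3 := fun h H => h (main.2 H)
  tfae_have 3 → 1 := fun h => by
    by_contra c
    refine h (collapse fun C h1 h2 => ?_)
    by_contra d
    exact c ⟨C, h1, h2, d⟩
  tfae_finish

end Pool.Agent.Results.MP_ab626d_lc.AIffPneNP
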